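import Pool.Agent.Lib_MP_e4b855_nt.Tri.Final
import Pool.Agent.Lib_MP_e4b855_nt.Tri.Three

namespace Pool.Agent.Results.MP_e4b855_nt.AllExponents

open Pool.Agent.Lib_MP_e4b855_nt

/-- `M(k) = 2` for every `k ≥ 4`: the largest number of pairwise distinct sets of `2 ^ k` integers
sharing one multiset of pair sums is two. -/
theorem result (k : ℕ) (hk : 4 ≤ k) :
    IsGreatest {m : ℕ | ∃ F : Finset (Finset ℤ), F.card = m ∧ (∀ X ∈ F, X.card = 2 ^ k) ∧
      ∀ X ∈ F, ∀ Y ∈ F, pairSums X = pairSums Y} 2 :=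
  Tri.greatest_two k hk fun _ T => T.partThree

end Pool.Agent.Results.MP_e4b855_nt.AllExponents
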